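import Pool.Agent.H11.EL.Targets2

/-! MP_0b603e_al: module VE. -/

set_option autoImplicit false

namespace Pool.Agent.H84.EL

open Pool.Agent.H11.EL
open scoped commutatorElement

theorem comm_mem {G : Type} [Group G] {A : Subgroup G} (hA : A.Normal) {a : G} (ha : a ∈ A) (g : G) :
    ⁅a, g⁆ ∈ A := by
  have h : ⁅a, g⁆ = a * (g * a⁻¹ * g⁻¹) := by
    rw [commutatorElement_def]; group
  rw [h]
  exact A.mul_mem ha (hA.conj_mem _ (A.inv_mem ha) g)

theorem comm_mulA {G : Type} [Group G] {A : Subgroup G} (hA : A.Normal)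
    (hab : ∀ x ∈ A, ∀ y ∈ A, x * y = y * x) {a a' : G} (ha : a ∈ A) (ha' : a' ∈ A) (g : G) :
    ⁅a * a', g⁆ = ⁅a, g⁆ * ⁅a', g⁆ := by
  have h1 : ⁅a * a', g⁆ = a * ⁅a', g⁆ * a⁻¹ * ⁅a, g⁆ := by
    simp only [commutatorElement_def]; group
  have h2 : a * ⁅a', g⁆ * a⁻¹ = ⁅a', g⁆ := by
    rw [hab a ha _ (comm_mem hA ha' g)]; group
  rw [h1, h2]
  exact hab _ (comm_mem hA ha' g) _ (comm_mem hA ha g)

theorem cp_mem {G : Type} [Group G] {A : Subgroup G} (hA : A.Normal) (s a : ℕ → G)
    (ha : ∀ i, a i ∈ A) (n : ℕ) : cp n a s ∈ A := by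
  induction n with
  | zero => exact A.one_mem
  | succ n ih =>
    rw [cp_succ]
    exact A.mul_mem ih (comm_mem hA (ha n) _)

theorem cp_mulA {G : Type} [Group G] {A : Subgroup G} (hA : A.Normal)
    (hab : ∀ x ∈ A, ∀ y ∈ A, x * y = y * x) (s a a' : ℕ → G)
    (ha : ∀ i, a i ∈ A) (ha' : ∀ i, a' i ∈ A) (n : ℕ) :
    cp n (fun i => a i * a' i) s = cp n a s * cp n a' s := by
  induction n with
  | zero => simp
  | succ n ih =>
    rw [cp_succ, cp_succ, cp_succ, ih, comm_mulA hA hab (ha n) (ha' n)]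
    have h := hab _ (cp_mem hA s a' ha' n) _ (comm_mem hA (ha n) (s n))
    calc cp n a s * cp n a' s * (⁅a n, s n⁆ * ⁅a' n, s n⁆)
        = cp n a s * (cp n a' s * ⁅a n, s n⁆) * ⁅a' n, s n⁆ := by group
      _ = cp n a s * (⁅a n, s n⁆ * cp n a' s) * ⁅a' n, s n⁆ := by rw [h]
      _ = cp n a s * ⁅a n, s n⁆ * (cp n a' s * ⁅a' n, s n⁆) := by group

theorem cp_one {G : Type} [Group G] (s : ℕ → G) (n : ℕ) : cp n (fun _ => (1 : G)) s = 1 := by
  induction n with
  | zero => rfl
  | succ n ih => rw [cp_succ, ih, commutatorElement_def]; group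

theorem cp_single {G : Type} [Group G] (s : ℕ → G) (a : G) (i n : ℕ) :
    cp n (fun j => if j = i then a else 1) s = if i < n then ⁅a, s i⁆ else 1 := by
  induction n with
  | zero => simp
  | succ n ih =>
    rw [cp_succ, ih]
    by_cases h1 : i < n
    · have h2 : i < n + 1 := by omega
      have h3 : ¬ (n = i) := by omega
      rw [if_pos h1, if_pos h2, if_neg h3, commutatorElement_one_left, mul_one]
    · by_cases h4 : n = i
      · subst h4
        rw [if_neg h1, if_pos rfl, if_pos (Nat.lt_succ_self _), one_mul]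
      · have h2 : ¬ i < n + 1 := by omega
        rw [if_neg h1, if_neg h2, if_neg h4, commutatorElement_one_left, mul_one]

theorem pf_ve : T_VE := by
  intro G _ A hA hab d s hs κ hκ
  let I : Subgroup G :=
    { carrier := {t | ∃ a : ℕ → G, (∀ i, a i ∈ A) ∧ cp d a s = t}
      one_mem' := ⟨fun _ => 1, fun _ => A.one_mem, cp_one s d⟩
      mul_mem' := by
        rintro x y ⟨a, ha, rfl⟩ ⟨b, hb, rfl⟩
        exact ⟨fun i => a i * b i, fun i => A.mul_mem (ha i) (hb i), cp_mulA hA hab s a b ha hb d⟩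
      inv_mem' := by
        rintro x ⟨a, ha, rfl⟩
        refine ⟨fun i => (a i)⁻¹, fun i => A.inv_mem (ha i), ?_⟩
        have h := cp_mulA hA hab s a (fun i => (a i)⁻¹) ha (fun i => A.inv_mem (ha i)) d
        have h1 : (fun i => a i * (a i)⁻¹) = fun _ => (1 : G) := by
          funext i; group
        rw [h1, cp_one] at h
        exact (inv_eq_of_mul_eq_one_right h.symm).symm }
  have hIm : ∀ t, t ∈ I ↔ ∃ a : ℕ → G, (∀ i, a i ∈ A) ∧ cp d a s = t := fun t => Iff.rfl
  have hIA : ∀ t ∈ I, t ∈ A := by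
    intro t ht
    obtain ⟨a, ha, rfl⟩ := (hIm t).mp ht
    exact cp_mem hA s a ha d
  let K : Subgroup G :=
    { carrier := {g | ∀ a ∈ A, ⁅a, g⁆ ∈ I}
      one_mem' := by
        intro a _
        rw [commutatorElement_one_right]
        exact I.one_mem
      mul_mem' := by
        intro g h hg hh a ha
        have e1 : ⁅a, g * h⁆ = ⁅a, g⁆ * (g * ⁅a, h⁆ * g⁻¹) := by
          simp only [commutatorElement_def]; group
        rw [e1]
        refine I.mul_mem (hg a ha) ?_
        have hp : ⁅a, h⁆ ∈ I := hh a ha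
        have e2 : g * ⁅a, h⁆ * g⁻¹ = ⁅⁅a, h⁆, g⁆⁻¹ * ⁅a, h⁆ := by
          simp only [commutatorElement_def]; group
        rw [e2]
        exact I.mul_mem (I.inv_mem (hg _ (hIA _ hp))) hp
      inv_mem' := by
        intro g hg a ha
        have e1 : ⁅a, g⁻¹⁆ = ⁅g⁻¹ * a * g, g⁆⁻¹ := by
          simp only [commutatorElement_def]; group
        rw [e1]
        refine I.inv_mem (hg _ ?_)
        have := hA.conj_mem a ha g⁻¹
        rwa [inv_inv] at this }
  have hK : K = ⊤ := by
    rw [← top_le_iff, ← hs, Subgroup.closure_le]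
    rintro g ⟨i, hi, rfl⟩ a ha
    rw [hIm]
    refine ⟨fun j => if j = i then a else 1, ?_, ?_⟩
    · intro j
      by_cases h : j = i
      · simp only [if_pos h]; exact ha
      · simp only [if_neg h]; exact A.one_mem
    · rw [cp_single, if_pos hi]
  have hle : ⁅A, (⊤ : Subgroup G)⁆ ≤ I := by
    rw [Subgroup.commutator_le]
    intro a ha g _
    have hg : g ∈ K := by rw [hK]; exact Subgroup.mem_top g
    exact hg a ha
  exact (hIm κ).mp (hle hκ)

end Pool.Agent.H84.EL
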